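import Mathlib
import Pool.Agent.H710R2.DP.Defs
import Pool.Agent.H710R2.DP.Defs2
import Pool.Agent.H710R2.DP.Tasks
import Pool.Agent.H710R2.DP.VTasks

open scoped ComplexOrder InnerProductSpace ComplexConjugate
open Finset

noncomputable section

namespace H710R2.DP

open H759R2.Kad

theorem dp_Vsub (h1 : V_supp) : V_sub := by
  intro H _ _ _ M e he hpe hab E hE hpE heE
  obtain ⟨c, hc, hcE, hcy⟩ := h1 H M E hE
  have hEe : E * e = E := by
    have := congrArg star heE
    rw [star_mul, hpE.1, hpe.1] at this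
    exact this
  have hzero : ∀ a ∈ M, (e - E) * a * E = 0 := by
    intro a ha
    have hbd : ∀ ε : ℝ, 0 < ε → ‖(e - E) * a * E‖ ≤ ‖e - E‖ * ε * ‖E‖ := by
      intro ε hε
      obtain ⟨z, hz, hz2⟩ := hab a ha ε hε
      have h2 : (e - E) * a * E = (e - E) * (e * a * e - z * e) * E := by
        have h3 : (e - E) * (z * e) * E = 0 := by
          have h4 : (e - E) * z = z * (e - E) := by
            rw [sub_mul, mul_sub, hz.2 e he, hz.2 E hE]
          calc (e - E) * (z * e) * E = ((e - E) * z) * (e * E) := by noncomm_ring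
            _ = z * ((e - E) * E) := by rw [h4, heE, mul_assoc]
            _ = 0 := by rw [sub_mul, heE, hpE.2, sub_self, mul_zero]
        have h5 : (e - E) * (e * a * e) * E = (e - E) * a * E := by
          calc (e - E) * (e * a * e) * E = ((e - E) * e) * a * (e * E) := by noncomm_ring
            _ = (e - E) * a * E := by rw [sub_mul e E e, hpe.2, hEe, heE]
        rw [mul_sub, sub_mul (_ * _), h3, h5, sub_zero]
      rw [h2]
      refine (norm_mul_le _ _).trans ?_
      refine mul_le_mul_of_nonneg_right ?_ (norm_nonneg _)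
      refine (norm_mul_le _ _).trans ?_
      exact mul_le_mul_of_nonneg_left hz2 (norm_nonneg _)
    rw [← norm_le_zero_iff]
    refine le_of_forall_pos_le_add fun δ hδ => ?_
    rw [zero_add]
    have hK : 0 < ‖e - E‖ * ‖E‖ + 1 := by positivity
    have h6 := hbd (δ / (‖e - E‖ * ‖E‖ + 1)) (div_pos hδ hK)
    refine h6.trans ?_
    have h7 : ‖e - E‖ * (δ / (‖e - E‖ * ‖E‖ + 1)) * ‖E‖ =
        δ * ((‖e - E‖ * ‖E‖) / (‖e - E‖ * ‖E‖ + 1)) := by ring
    rw [h7]
    have h8 : (‖e - E‖ * ‖E‖) / (‖e - E‖ * ‖E‖ + 1) ≤ 1 := by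
      rw [div_le_one hK]
      linarith
    nlinarith [hδ.le]
  have h9 := hcy (e - E) hzero
  refine ⟨c, hc, ?_, fun w hw hwE => ?_⟩
  · rw [sub_mul, sub_eq_zero] at h9
    rw [hc.2.2 e he, h9, ← hc.2.2 E hE, hcE]
  · have h10 := hcy (1 - w) (fun a ha => by
      have h11 : (1 - w) * a * E = a * ((1 - w) * E) := by
        rw [sub_mul 1 w a, one_mul, hw.2.2 a ha, sub_mul, sub_mul, one_mul, mul_sub, mul_assoc]
      rw [h11, sub_mul, one_mul, hwE, sub_self, mul_zero])
    rw [sub_mul, one_mul, sub_eq_zero] at h10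
    exact h10.symm

theorem dp_Vabsorb (h1 : V_sub) (h2 : V_comp) : V_absorb := by
  intro H _ _ _ M e r he hr hpe hpr hab hw
  obtain ⟨v, hv, hvI, hve, hrv, z, hz, hz1, hz2⟩ := h2 H M e he r hr hpe hpr
  have hsv : star v ∈ M := star_mem hv
  have hvI' : v * star v * v = v := hvI
  have hE : star v * v ∈ M := mul_mem hsv hv
  have hpE : IsPr (star v * v) := by
    refine ⟨by rw [star_mul, star_star], ?_⟩
    calc star v * v * (star v * v) = star v * (v * star v * v) := by noncomm_ring
      _ = star v * v := by rw [hvI']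
  have hev : e * star v = star v := by
    have := congrArg star hve
    rw [star_mul, hpe.1] at this
    exact this
  have heE : e * (star v * v) = star v * v := by rw [← mul_assoc, hev]
  obtain ⟨c, hc, hce, -⟩ := h1 H M e he hpe hab (star v * v) hE hpE heE
  have hcv : c * v = v := by
    calc c * v = v * c := hc.2.2 v hv
      _ = (v * star v * v) * c := by rw [hvI']
      _ = v * ((star v * v) * c) := by noncomm_ring
      _ = v * ((c * e) * c) := by rw [hce]
      _ = v * (c * (e * c)) := by rw [mul_assoc]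
      _ = v * (c * (c * e)) := by rw [hc.2.2 e he]
      _ = v * ((c * c) * e) := by rw [mul_assoc]
      _ = v * (c * e) := by rw [hc.1.2]
      _ = v * (star v * v) := by rw [← hce]
      _ = v := by rw [← mul_assoc, hvI']
  have hcz : c * z = z * c := hc.2.2 z hz.2.1
  -- the projection `s`
  have hzr : z * r = z * (v * star v) := by
    rw [mul_sub, sub_eq_zero] at hz1
    exact hz1
  have hkr : (1 - c) * z * r = 0 := by
    have h3 : (1 - c) * z = z * (1 - c) := by rw [sub_mul, mul_sub, one_mul, mul_one, hcz]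
    have h4 : (1 - c) * v = 0 := by rw [sub_mul, one_mul, hcv, sub_self]
    rw [mul_assoc, hzr, ← mul_assoc, h3, mul_assoc, ← mul_assoc (1 - c) v, h4, zero_mul, mul_zero]
  have hidem : ((1 - c) * z) * ((1 - c) * z) = (1 - c) * z := by
    have h3 : z * (1 - c) = (1 - c) * z := by rw [sub_mul, mul_sub, one_mul, mul_one, hcz]
    have h5 : (1 - c) * (1 - c) = 1 - c := by
      rw [sub_mul, one_mul, mul_sub, mul_one, hc.1.2]
      abel
    calc ((1 - c) * z) * ((1 - c) * z) = (1 - c) * (z * (1 - c)) * z := by noncomm_ring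
      _ = (1 - c) * ((1 - c) * z) * z := by rw [h3]
      _ = ((1 - c) * (1 - c)) * (z * z) := by noncomm_ring
      _ = (1 - c) * z := by rw [h5, hz.1.2]
  have hs : IsCP M (1 - (1 - c) * z) := by
    refine ⟨⟨?_, ?_⟩, ?_, ?_⟩
    · rw [star_sub, star_one, star_mul, star_sub, star_one, hc.1.1, hz.1.1]
      rw [sub_mul, mul_sub, one_mul, mul_one, hcz]
    · rw [sub_mul, one_mul, mul_sub, mul_one, hidem]
      abel
    · exact sub_mem (one_mem M) (mul_mem (sub_mem (one_mem M) hc.2.1) hz.2.1)
    · intro a ha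
      have h6 := hc.2.2 a ha
      have h7 := hz.2.2 a ha
      have h8 : (1 - c) * z * a = a * ((1 - c) * z) := by
        calc (1 - c) * z * a = (1 - c) * (z * a) := by rw [mul_assoc]
          _ = (1 - c) * (a * z) := by rw [h7]
          _ = ((1 - c) * a) * z := by rw [mul_assoc]
          _ = (a * (1 - c)) * z := by rw [sub_mul, mul_sub, one_mul, mul_one, h6]
          _ = a * ((1 - c) * z) := by rw [mul_assoc]
      rw [sub_mul, mul_sub, one_mul, mul_one, h8]
  have hsr : (1 - (1 - c) * z) * r = r := by rw [sub_mul, one_mul, hkr, sub_zero]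
  have hse := (hw _ hs).1 hsr
  have hke : (1 - c) * z * e = 0 := by
    rw [sub_mul, one_mul] at hse
    exact sub_eq_self.1 hse
  have hfin : z * (e - star v * v) = 0 := by
    have h3 : z * (1 - c) = (1 - c) * z := by rw [sub_mul, mul_sub, one_mul, mul_one, hcz]
    have h9 : e - star v * v = (1 - c) * e := by rw [hce, sub_mul, one_mul]
    rw [h9, ← mul_assoc, h3, hke]
  refine ⟨v, hv, ?_, hrv⟩
  have h10 : e - star v * v = z * (e - star v * v) + (1 - z) * (e - star v * v) := by
    rw [← add_mul]
    simp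
  rw [hfin, hz2, add_zero, sub_eq_zero] at h10
  exact h10.symm

end H710R2.DP
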